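import Pool.Agent.Lib_helper29.AF13

/-!
# Averaging over coprime actions

Two elementary facts on a group of order prime to `p` acting on an abelian group of exponent `p`.
-/

set_option autoImplicit false

namespace Pool.Agent.AFC72

open Subgroup Pool.Agent.AFH29

/-- a cocycle with values in an abelian group of exponent `p` on a group of order prime to `p` is a
coboundary -/
theorem av {R V : Type} [Group R] [Finite R] [Group V] (hc : ∀ a b : V, a * b = b * a)
    (φ : R →* MulAut V) {p : ℕ} (hp : p.Prime) (hV : ∀ v : V, v ^ p = 1)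
    (hR : ¬ p ∣ Nat.card R) (d : R → V) (hd : ∀ r s, d (r * s) = d r * φ r (d s)) :
    ∃ m : V, ∀ r, d r = m * (φ r m)⁻¹ := by
  classical
  let _ : CommGroup V := { ‹Group V› with mul_comm := hc }
  let _ : Fintype R := Fintype.ofFinite R
  have hco : Nat.Coprime (Nat.card R) p := ((Nat.Prime.coprime_iff_not_dvd hp).2 hR).symm
  obtain ⟨t, ht⟩ := Nat.exists_mul_mod_eq_one_of_coprime hco hp.one_lt
  have hpow : ∀ v : V, (v ^ Nat.card R) ^ t = v := by
    intro v
    rw [← pow_mul, pow_eq_pow_mod _ (hV v), ht.2, pow_one]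
  refine ⟨(∏ s, d s) ^ t, fun r => ?_⟩
  have h1 : φ r (∏ s, d s) = (d r)⁻¹ ^ Nat.card R * ∏ s, d s := by
    rw [map_prod]
    have h2 : ∀ s, φ r (d s) = (d r)⁻¹ * d (r * s) := by
      intro s
      rw [hd, inv_mul_cancel_left]
    rw [Finset.prod_congr rfl fun s _ => h2 s, Finset.prod_mul_distrib, Finset.prod_const,
      Finset.card_univ, Nat.card_eq_fintype_card]
    congr 1
    exact Equiv.prod_comp (Equiv.mulLeft r) d
  rw [map_pow, h1, mul_pow, hpow]
  rw [mul_inv_rev, inv_inv, mul_inv_cancel_left]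

/-- the invariance lemma -/
theorem inv_fix {L V : Type} [Group L] [Finite L] [Group V] [Finite V]
    (hc : ∀ a b : V, a * b = b * a)
    (φ : L →* MulAut V) {p : ℕ} (hp : p.Prime) (hV : ∀ v : V, v ^ p = 1) (A B : Subgroup L)
    (hB : ¬ p ∣ Nat.card B) (hAB : ∀ l : L, ∃ a ∈ A, ∃ b ∈ B, l = a * b)
    (hfix : ∀ v : V, (∀ l, φ l v = v) → v = 1)
    (hsum : ∀ v : V, ∃ x y, (∀ a ∈ A, φ a x = x) ∧ (∀ b ∈ B, φ b y = y) ∧ v = x * y) :
    ∀ x, (∀ a ∈ A, φ a x = x) → ∀ b ∈ B, ∀ a ∈ A, φ a (φ b x) = φ b x := by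
  classical
  let _ : CommGroup V := { ‹Group V› with mul_comm := hc }
  let _ : Fintype B := Fintype.ofFinite B
  have hBA : ∀ l : L, ∃ b ∈ B, ∃ a ∈ A, l = b * a := by
    intro l
    obtain ⟨a, ha, b, hb, h⟩ := hAB l⁻¹
    refine ⟨b⁻¹, B.inv_mem hb, a⁻¹, A.inv_mem ha, ?_⟩
    rw [← mul_inv_rev, ← h, inv_inv]
  have horb : ∀ x, (∀ a ∈ A, φ a x = x) → ∀ l : L, ∃ b : B, φ l x = φ b x := by
    intro x hx l
    obtain ⟨b, hb, a, ha, rfl⟩ := hBA l
    refine ⟨⟨b, hb⟩, ?_⟩
    rw [map_mul, MulAut.mul_apply, hx a ha]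
  -- the norm of a point fixed by `A` is trivial
  have hN : ∀ x, (∀ a ∈ A, φ a x = x) → ∏ b : B, φ (b : L) x = 1 := by
    intro x hx
    set g : B → V := fun b => φ (b : L) x with hg
    set O : Finset V := Finset.univ.image g with hO
    have hS : ∏ y ∈ O, y = 1 := by
      apply hfix
      intro l
      rw [map_prod]
      have himg : O.image (fun y => φ l y) = O := by
        apply Finset.eq_of_subset_of_card_le
        · intro z hz
          rw [Finset.mem_image] at hz
          obtain ⟨y, hy, rfl⟩ := hz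
          rw [hO, Finset.mem_image] at hy
          obtain ⟨b, _, rfl⟩ := hy
          obtain ⟨b', hb'⟩ := horb x hx (l * b)
          rw [hO, Finset.mem_image]
          refine ⟨b', Finset.mem_univ _, ?_⟩
          rw [hg]
          simp only
          rw [← hb', map_mul, MulAut.mul_apply]
        · rw [Finset.card_image_of_injective _ (φ l).injective]
      have h1 : ∏ y ∈ O.image (fun y => φ l y), y = ∏ y ∈ O, φ l y :=
        Finset.prod_image fun a _ b _ h => (φ l).injective h
      rw [← h1, himg]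
    have h2 : ∏ b : B, g b = ∏ y ∈ O, y ^ (Finset.univ.filter fun b => g b = y).card :=
      Finset.prod_comp (fun y => y) g
    rw [h2]
    have h3 : ∀ y ∈ O, (Finset.univ.filter fun b => g b = y).card =
        (Finset.univ.filter fun b => g b = x).card := by
      intro y hy
      rw [hO, Finset.mem_image] at hy
      obtain ⟨b0, _, rfl⟩ := hy
      symm
      apply Finset.card_bij (fun b _ => b0 * b)
      · intro b hb
        rw [Finset.mem_filter] at hb ⊢
        refine ⟨Finset.mem_univ _, ?_⟩
        have h4 : g (b0 * b) = φ (b0 : L) (g b) := by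
          rw [hg]
          simp only [Subgroup.coe_mul, map_mul, MulAut.mul_apply]
        rw [h4, hb.2]
      · intro b _ b' _ h
        exact mul_left_cancel h
      · intro b hb
        rw [Finset.mem_filter] at hb
        refine ⟨b0⁻¹ * b, ?_, by rw [mul_inv_cancel_left]⟩
        rw [Finset.mem_filter]
        refine ⟨Finset.mem_univ _, ?_⟩
        have h4 : φ (b0 : L) (g (b0⁻¹ * b)) = g b := by
          rw [hg]
          simp only [Subgroup.coe_mul, map_mul, MulAut.mul_apply]
          rw [← MulAut.mul_apply, ← map_mul]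
          simp
        rw [hb.2] at h4
        exact (φ (b0 : L)).injective h4
    rw [Finset.prod_congr rfl fun y hy => by rw [h3 y hy], Finset.prod_pow, hS, one_pow]
  -- a point with trivial norm is fixed by `A`
  have hF : ∀ v, ∏ b : B, φ (b : L) v = 1 → ∀ a ∈ A, φ a v = v := by
    intro v hv
    obtain ⟨x, y, hx, hy, rfl⟩ := hsum v
    have h1 : ∏ b : B, φ (b : L) (x * y) = y ^ Nat.card B := by
      have : ∀ b : B, φ (b : L) (x * y) = φ (b : L) x * y := by
        intro b
        rw [map_mul, hy b b.2]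
      rw [Finset.prod_congr rfl fun b _ => this b, Finset.prod_mul_distrib, hN x hx, one_mul,
        Finset.prod_const, Finset.card_univ, Nat.card_eq_fintype_card]
    rw [h1] at hv
    have hy1 : y = 1 :=
      eq_one_of_pow_coprime hv (hV y) ((Nat.Prime.coprime_iff_not_dvd hp).2 hB).symm
    rw [hy1, mul_one]
    exact hx
  intro x hx b hb
  apply hF
  have h1 : ∏ c : B, φ (c : L) (φ b x) = ∏ c : B, φ (c : L) x := by
    rw [← Equiv.prod_comp (Equiv.mulRight (⟨b, hb⟩ : B)) (fun c : B => φ (c : L) x)]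
    refine Finset.prod_congr rfl fun c _ => ?_
    simp only [Equiv.coe_mulRight, Subgroup.coe_mul, map_mul, MulAut.mul_apply]
  rw [h1, hN x hx]

end Pool.Agent.AFC72
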