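import Pool.Agent.AFC72.Parts

/-!
# Products of two sigma-nilpotent subgroups: the core of the induction
-/

set_option autoImplicit false

namespace Pool.Agent.AFC72

open Subgroup Pool.Agent.AFH29

variable {σ : Setoid ℕ}

section Avg

variable {G : Type} [Group G] [Finite G] (N : Subgroup G) [hNn : N.Normal]
  (hc : ∀ a ∈ N, ∀ b ∈ N, a * b = b * a) {p : ℕ} (hp : p.Prime) (hN : ∀ w ∈ N, w ^ p = 1)

include hc hp hN

theorem av_sub (R : Subgroup G) (hR : ¬ p ∣ Nat.card R) (d : R → G) (hdN : ∀ r, d r ∈ N)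
    (hd : ∀ r s : R, d (r * s) = d r * ((r : G) * d s * (r : G)⁻¹)) :
    ∃ m ∈ N, ∀ r : R, d r = m * ((r : G) * m * (r : G)⁻¹)⁻¹ := by
  obtain ⟨m, hm⟩ := av (R := R) (V := N) (fun a b => Subtype.ext (hc a a.2 b b.2))
    ((MulAut.conjNormal (H := N)).comp R.subtype) hp (fun v => Subtype.ext (hN v v.2)) hR
    (fun r => ⟨d r, hdN r⟩) (fun r s => Subtype.ext (hd r s))
  exact ⟨m, m.2, fun r => congrArg Subtype.val (hm r)⟩

/-- coprime action: a coset of `N` fixed by `R` contains a fixed element -/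
theorem ca (R : Subgroup G) (hR : ¬ p ∣ Nat.card R) (g : G)
    (hg : ∀ r ∈ R, g * r * g⁻¹ * r⁻¹ ∈ N) :
    ∃ m ∈ N, ∀ r ∈ R, (m⁻¹ * g) * r = r * (m⁻¹ * g) := by
  obtain ⟨m, hm, h⟩ := av_sub N hc hp hN R hR (fun r => g * r * g⁻¹ * (r : G)⁻¹)
    (fun r => hg r r.2) (fun r s => by simp only [Subgroup.coe_mul]; group)
  refine ⟨m, hm, fun r hr => ?_⟩
  have h1 := h ⟨r, hr⟩
  simp only at h1
  have h2 : g * r * g⁻¹ = m * r * m⁻¹ := by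
    calc g * r * g⁻¹ = (g * r * g⁻¹ * r⁻¹) * r := by group
      _ = m * (r * m * r⁻¹)⁻¹ * r := by rw [h1]
      _ = m * r * m⁻¹ := by group
  calc m⁻¹ * g * r = m⁻¹ * (g * r * g⁻¹) * g := by group
    _ = m⁻¹ * (m * r * m⁻¹) * g := by rw [h2]
    _ = r * (m⁻¹ * g) := by group

omit hp hN in
/-- an element which centralises `R` modulo `N` preserves the fixed points of `R` in `N` -/
theorem fix_conj (R : Subgroup G) {g : G} (hg : ∀ r ∈ R, g * r * g⁻¹ * r⁻¹ ∈ N) {x : G}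
    (hx : x ∈ N) (hxR : ∀ r ∈ R, r * x * r⁻¹ = x) :
    ∀ r ∈ R, r * (g * x * g⁻¹) * r⁻¹ = g * x * g⁻¹ := by
  intro r hr
  have h1 : (g * r * g⁻¹ * r⁻¹)⁻¹ ∈ N := N.inv_mem (hg r hr)
  have h2 : g * x * g⁻¹ ∈ N := hNn.conj_mem x hx g
  calc r * (g * x * g⁻¹) * r⁻¹
      = (g * r * g⁻¹ * r⁻¹)⁻¹ * (g * (r * x * r⁻¹) * g⁻¹) * (g * r * g⁻¹ * r⁻¹) := by group
    _ = (g * r * g⁻¹ * r⁻¹)⁻¹ * (g * x * g⁻¹) * (g * r * g⁻¹ * r⁻¹) := by rw [hxR r hr]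
    _ = (g * x * g⁻¹) * (g * r * g⁻¹ * r⁻¹)⁻¹ * (g * r * g⁻¹ * r⁻¹) := by
        rw [hc _ h1 _ h2]
    _ = g * x * g⁻¹ := by group

/-- a subgroup of `N H` of order prime to `p` is conjugate under `N` to a subgroup of `H` -/
theorem conj_into (H R : Subgroup G) (hNH : ∀ x ∈ N, x ∈ H → x = 1) (hR : ¬ p ∣ Nat.card R)
    (hRH : ∀ x ∈ R, ∃ n ∈ N, ∃ h ∈ H, x = n * h) :
    ∃ m ∈ N, ∀ x ∈ R, m⁻¹ * x * m ∈ H := by
  choose n hn h hh hx using fun x : R => hRH x x.2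
  obtain ⟨m, hm, hm'⟩ := av_sub N hc hp hN R hR n hn (by
    intro x y
    have h0 : (x : G) * n y * (x : G)⁻¹ ∈ N := hNn.conj_mem _ (hn y) _
    have h1 : h x * n y * (h x)⁻¹ ∈ N := hNn.conj_mem _ (hn y) _
    have h2 : (x : G) * n y * (x : G)⁻¹ = h x * n y * (h x)⁻¹ := by
      calc (x : G) * n y * (x : G)⁻¹ = n x * (h x * n y * (h x)⁻¹) * (n x)⁻¹ := by
            conv_lhs => rw [hx x]
            group
        _ = (h x * n y * (h x)⁻¹) * n x * (n x)⁻¹ := by rw [hc _ (hn x) _ h1]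
        _ = h x * n y * (h x)⁻¹ := by group
    have h3 : n x * ((x : G) * n y * (x : G)⁻¹) ∈ N := N.mul_mem (hn x) h0
    have h4 : (n x * ((x : G) * n y * (x : G)⁻¹))⁻¹ * n (x * y) = h x * h y * (h (x * y))⁻¹ := by
      have h5 : n (x * y) * h (x * y) = (n x * h x) * (n y * h y) := by
        rw [← hx (x * y), ← hx x, ← hx y, Subgroup.coe_mul]
      have h6 : n (x * y) = (n x * h x) * (n y * h y) * (h (x * y))⁻¹ := by
        rw [← h5]; group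
      rw [h6, h2]
      group
    have h7 := hNH _ (N.mul_mem (N.inv_mem h3) (hn (x * y))) (by
      rw [h4]
      exact H.mul_mem (H.mul_mem (hh x) (hh y)) (H.inv_mem (hh (x * y))))
    exact (inv_mul_eq_one.1 h7).symm)
  refine ⟨m, hm, fun x hxR => ?_⟩
  have h1 := hm' ⟨x, hxR⟩
  have h2 := hx ⟨x, hxR⟩
  simp only at h1 h2
  have h0 : x * m * x⁻¹ ∈ N := hNn.conj_mem _ hm _
  have h3 : h ⟨x, hxR⟩ = m⁻¹ * x * m := by
    calc h ⟨x, hxR⟩ = (n ⟨x, hxR⟩)⁻¹ * x := eq_inv_mul_of_mul_eq h2.symm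
      _ = (m * (x * m * x⁻¹)⁻¹)⁻¹ * x := by rw [h1]
      _ = (x * m * x⁻¹) * m⁻¹ * x := by group
      _ = m⁻¹ * (x * m * x⁻¹) * x := by rw [hc _ h0 _ (N.inv_mem hm)]
      _ = m⁻¹ * x * m := by group
  rw [← h3]
  exact hh _

/-- the invariance lemma for subgroups -/
theorem inv_fix_sub (H A B : Subgroup G) (hAH : A ≤ H) (hBH : B ≤ H) (hB : ¬ p ∣ Nat.card B)
    (hAB : ∀ h ∈ H, ∃ a ∈ A, ∃ b ∈ B, h = a * b)
    (hfix : ∀ v ∈ N, (∀ h ∈ H, h * v * h⁻¹ = v) → v = 1)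
    (hsum : ∀ v ∈ N, ∃ x ∈ N, ∃ y ∈ N, (∀ a ∈ A, a * x * a⁻¹ = x) ∧ (∀ b ∈ B, b * y * b⁻¹ = y) ∧
      v = x * y) :
    ∀ x ∈ N, (∀ a ∈ A, a * x * a⁻¹ = x) → ∀ b ∈ B, ∀ a ∈ A, a * (b * x * b⁻¹) * a⁻¹ = b * x * b⁻¹ := by
  intro x hx hxA b hb a ha
  have key := inv_fix (L := H) (V := N) (fun a b => Subtype.ext (hc a a.2 b b.2))
    ((MulAut.conjNormal (H := N)).comp H.subtype) hp (fun v => Subtype.ext (hN v v.2))
    (A.subgroupOf H) (B.subgroupOf H) (by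
      rw [Nat.card_congr (Subgroup.subgroupOfEquivOfLe hBH).toEquiv]
      exact hB) (by
      rintro ⟨l, hl⟩
      obtain ⟨a, ha, b, hb, h⟩ := hAB l hl
      exact ⟨⟨a, hAH ha⟩, ha, ⟨b, hBH hb⟩, hb, Subtype.ext h⟩) (by
      rintro ⟨v, hv⟩ h
      refine Subtype.ext (hfix v hv fun h' hh' => ?_)
      exact congrArg Subtype.val (h ⟨h', hh'⟩)) (by
      rintro ⟨v, hv⟩
      obtain ⟨x, hx, y, hy, h1, h2, h3⟩ := hsum v hv
      refine ⟨⟨x, hx⟩, ⟨y, hy⟩, ?_, ?_, Subtype.ext h3⟩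
      · rintro ⟨a, _⟩ ha
        exact Subtype.ext (h1 a ha)
      · rintro ⟨b, _⟩ hb
        exact Subtype.ext (h2 b hb))
    ⟨x, hx⟩ (by
      rintro ⟨a, _⟩ ha
      exact Subtype.ext (hxA a ha)) ⟨b, hBH hb⟩ hb ⟨a, hAH ha⟩ ha
  exact congrArg Subtype.val key

end Avg

end Pool.Agent.AFC72
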