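import Pool.Agent.AFC72.Main

/-!
# The induction: products of two sigma-nilpotent subgroups whose normal closure is everything
-/

set_option autoImplicit false

namespace Pool.Agent.AFC72

open Subgroup Pool.Agent.AFH29

variable {σ : Setoid ℕ}

theorem Cm.map {G K : Type} [Group G] [Finite G] [Group K] (f : G →* K) {A : Subgroup G}
    (h : Cm σ A) : Cm σ (A.map f) :=
  h.of_surjective (f.subgroupMap A) (f.subgroupMap_surjective A)

theorem Full.map {G K : Type} [Group G] [Group K] (f : G →* K) (hf : Function.Surjective f)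
    {A : Subgroup G} (h : Full A) : Full (A.map f) := by
  intro L hL hAL
  have h1 : A ≤ L.comap f := Subgroup.map_le_iff_le_comap.1 hAL
  have h2 := h (L.comap f) inferInstance h1
  rw [eq_top_iff]
  intro y _
  obtain ⟨x, rfl⟩ := hf y
  have : x ∈ L.comap f := by rw [h2]; trivial
  exact this

theorem fac_map {G K : Type} [Group G] [Group K] (f : G →* K) (hf : Function.Surjective f)
    {A B : Subgroup G} (h : ∀ g : G, ∃ a ∈ A, ∃ b ∈ B, g = a * b) :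
    ∀ g : K, ∃ a ∈ A.map f, ∃ b ∈ B.map f, g = a * b := by
  intro g
  obtain ⟨x, rfl⟩ := hf g
  obtain ⟨a, ha, b, hb, rfl⟩ := h x
  exact ⟨f a, Subgroup.mem_map_of_mem f ha, f b, Subgroup.mem_map_of_mem f hb, map_mul f a b⟩

theorem fac_conj {G : Type} [Group G] {A B : Subgroup G}
    (h : ∀ g : G, ∃ a ∈ A, ∃ b ∈ B, g = a * b) (m n : G) :
    ∀ g : G, ∃ a ∈ A.map (MulAut.conj m).toMonoidHom, ∃ b ∈ B.map (MulAut.conj n).toMonoidHom,
      g = a * b := by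
  intro g
  obtain ⟨a0, ha0, b0, hb0, h0⟩ := h (m⁻¹ * n)
  obtain ⟨a1, ha1, b1, hb1, h1⟩ := h (m⁻¹ * g * n)
  refine ⟨m * (a1 * a0⁻¹) * m⁻¹, ⟨a1 * a0⁻¹, A.mul_mem ha1 (A.inv_mem ha0), rfl⟩,
    n * (b0⁻¹ * b1) * n⁻¹, ⟨b0⁻¹ * b1, B.mul_mem (B.inv_mem hb0) hb1, rfl⟩, ?_⟩
  calc g = m * (m⁻¹ * g * n) * n⁻¹ := by group
    _ = m * (a1 * b1) * n⁻¹ := by rw [h1]
    _ = m * (a1 * a0⁻¹) * (a0 * b0) * (b0⁻¹ * b1) * n⁻¹ := by group
    _ = m * (a1 * a0⁻¹) * (m⁻¹ * n) * (b0⁻¹ * b1) * n⁻¹ := by rw [h0]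
    _ = m * (a1 * a0⁻¹) * m⁻¹ * (n * (b0⁻¹ * b1) * n⁻¹) := by group

theorem Full.conj {G : Type} [Group G] {A : Subgroup G} (h : Full A) (m : G) :
    Full (A.map (MulAut.conj m).toMonoidHom) :=
  h.map _ (MulAut.conj m).surjective

theorem part_conj {G : Type} [Group G] {A H : Subgroup G} {E : ℕ → Prop} {m : G}
    (h : ∀ x ∈ part A E, m * x * m⁻¹ ∈ H) :
    part (A.map (MulAut.conj m).toMonoidHom) E ≤ H := by
  rw [part, Subgroup.closure_le]
  rintro x ⟨⟨a, ha, rfl⟩, s, hs, hE, k, hk⟩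
  refine h a (mem_part ha hs hE ⟨k, ?_⟩)
  have h1 : (MulAut.conj m) (a ^ s ^ k) = 1 := by
    rw [map_pow]
    exact hk
  exact (map_eq_one_iff _ (MulAut.conj m).injective).1 h1

theorem exists_min_normal {G : Type} [Group G] [Finite G] (h : (⊤ : Subgroup G) ≠ ⊥) :
    ∃ N : Subgroup G, N.Normal ∧ N ≠ ⊥ ∧
      ∀ K : Subgroup G, K.Normal → K ≤ N → K = ⊥ ∨ K = N := by
  classical
  have hex : ∃ n : ℕ, ∃ N : Subgroup G, N.Normal ∧ N ≠ ⊥ ∧ Nat.card N = n :=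
    ⟨_, ⊤, inferInstance, h, rfl⟩
  obtain ⟨N, hN, hne, hcard⟩ := Nat.find_spec hex
  refine ⟨N, hN, hne, fun K hK hKN => ?_⟩
  by_cases hb : K = ⊥
  · exact Or.inl hb
  · right
    have h1 : Nat.find hex ≤ Nat.card K := Nat.find_min' hex ⟨K, hK, hb, rfl⟩
    rw [← hcard] at h1
    exact Subgroup.eq_of_le_of_card_ge hKN h1

theorem cm_of_factor : ∀ n : ℕ, ∀ (G : Type) [Group G] [Finite G] [Group.IsSolvable G]
    (A B : Subgroup G), Nat.card G = n → (∀ g : G, ∃ a ∈ A, ∃ b ∈ B, g = a * b) → Cm σ A →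
    Cm σ B → Full A → Full B → Cm σ G := by
  intro n
  induction n using Nat.strong_induction_on with
  | _ n ih =>
  intro G _ _ _ A B hn hAB hA hB fA fB
  by_contra hG
  have htop : (⊤ : Subgroup G) ≠ ⊥ := by
    intro h
    apply hG
    intro p q _ _ _ x y _ _
    have hx : x ∈ (⊤ : Subgroup G) := trivial
    have hy : y ∈ (⊤ : Subgroup G) := trivial
    rw [h, Subgroup.mem_bot] at hx hy
    rw [hx, hy]
  obtain ⟨N, hNn, hNbot, hmin⟩ := exists_min_normal htop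
  have hq : ∀ K : Subgroup G, ∀ [K.Normal], K ≠ ⊥ → Cm σ (G ⧸ K) := by
    intro K hKn hK
    have h1 : Nat.card (G ⧸ K) < n := by
      rw [← hn, Subgroup.card_eq_card_quotient_mul_card_subgroup K]
      have h2 : 1 < Nat.card K := (Subgroup.one_lt_card_iff_ne_bot K).2 hK
      have h3 : 0 < Nat.card (G ⧸ K) := Nat.card_pos
      exact lt_mul_of_one_lt_right h3 h2
    have hs := QuotientGroup.mk'_surjective K
    have : Group.IsSolvable (G ⧸ K) := Group.isSolvable_of_surjective hs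
    exact ih _ h1 (G ⧸ K) (A.map (QuotientGroup.mk' K)) (B.map (QuotientGroup.mk' K)) rfl
      (fac_map _ hs hAB) (Cm.map _ hA) (Cm.map _ hB) (fA.map _ hs) (fB.map _ hs)
  obtain ⟨hc, p, hp, hpN, hN⟩ := min_normal N hNbot hmin
  have : Fact p.Prime := ⟨hp⟩
  have hpp : σ p p := σ.refl p
  have hE : ∀ s t, s.Prime → t.Prime → σ p s → ¬ σ p t → ¬ σ s t :=
    fun s t _ _ h1 h2 h3 => h2 (σ.trans h1 h3)
  have hE' : ∀ s t, s.Prime → t.Prime → ¬ σ p s → ¬ ¬ σ p t → ¬ σ s t :=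
    fun s t _ _ h1 h2 h3 => h1 (σ.trans (not_not.1 h2) (σ.symm h3))
  have hQ : Cm σ (⊤ : Subgroup (G ⧸ N)) := cm_top (hq N hNbot)
  set Q1 := part (⊤ : Subgroup (G ⧸ N)) (fun s => σ p s) with hQ1
  set Q2 := part (⊤ : Subgroup (G ⧸ N)) (fun s => ¬ σ p s) with hQ2
  have hQ1c : ∀ t : ℕ, t.Prime → ¬ σ p t → ¬ t ∣ Nat.card Q1 :=
    fun t ht h => part_not_dvd hQ hE ht h
  have hQ2c : ∀ t : ℕ, t.Prime → σ p t → ¬ t ∣ Nat.card Q2 :=
    fun t ht h => part_not_dvd hQ hE' ht (not_not.2 h)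
  have hQdisj : ∀ x, x ∈ Q1 → x ∈ Q2 → x = 1 := fun x h1 h2 =>
    eq_one_of_mem (fun t ht htG htH => hQ1c t ht (fun h => hQ2c t ht h htH) htG) h1 h2
  set G1 := part (⊤ : Subgroup G) (fun s => σ p s) with hG1
  have hG1n : G1.Normal := part_normal inferInstance _
  have hs : ∀ (x : G) (s : ℕ), s.Prime → σ p s → PEl s x → x ∈ G1 :=
    fun x s hs h1 h2 => mem_part (Subgroup.mem_top x) hs h1 h2
  have hNp : ∀ w ∈ N, PEl p w := fun w hw => ⟨1, by rw [pow_one]; exact hN w hw⟩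
  have hNG1 : N ≤ G1 := fun w hw => hs w p hp hpp (hNp w hw)
  have hG1card : ∀ t : ℕ, t.Prime → ¬ σ p t → ¬ t ∣ Nat.card G1 := by
    intro t ht hpt hd
    have : Fact t.Prime := ⟨ht⟩
    obtain ⟨x, hx⟩ := exists_prime_orderOf_dvd_card' t hd
    have hxt : PEl t (x : G) := ⟨1, by
      have h1 : x ^ t = 1 := by rw [← hx]; exact pow_orderOf_eq_one x
      rw [pow_one, ← Subgroup.coe_pow, h1, Subgroup.coe_one]⟩
    have h2 : QuotientGroup.mk' N (x : G) ∈ Q1 := part_map_le _ _ _ x.2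
    have h3 : (⟨QuotientGroup.mk' N (x : G), h2⟩ : Q1) = 1 := by
      obtain ⟨k, hk⟩ := hxt
      refine PEl.eq_one_of_not_dvd (p := t) ⟨k, Subtype.ext ?_⟩ (hQ1c t ht hpt)
      rw [Subgroup.coe_pow, ← map_pow, hk, map_one]
      rfl
    have h4 : (x : G) ∈ N := (QuotientGroup.eq_one_iff (x : G)).1 (congrArg Subtype.val h3)
    have hpt' : p ≠ t := by rintro rfl; exact hpt hpp
    obtain ⟨k, hk⟩ := hxt
    obtain ⟨j, hj⟩ := hNp _ h4
    have h5 : (x : G) = 1 := eq_one_of_pow_pow hpt' hj hk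
    have h6 : orderOf x = 1 := orderOf_eq_one_iff.2 (Subtype.ext h5)
    rw [h6] at hx
    exact ht.one_lt.ne hx
  have hidx : ∀ s : ℕ, s.Prime → σ p s → ¬ s ∣ G1.index :=
    fun s hsp h1 => index_not_dvd hsp G1 (fun x hx => hs x s hsp h1 hx)
  have hco : Nat.Coprime (Nat.card G1) G1.index := by
    apply Nat.Coprime.symm
    rw [Nat.coprime_iff_gcd_eq_one]
    by_contra hne
    obtain ⟨t, ht, htd⟩ := Nat.exists_prime_and_dvd hne
    have h1 := htd.trans (Nat.gcd_dvd_left _ _)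
    have h2 := htd.trans (Nat.gcd_dvd_right _ _)
    by_cases h3 : σ p t
    · exact hidx t ht h3 h1
    · exact hG1card t ht h3 h2
  obtain ⟨H, hH⟩ := Subgroup.exists_right_complement'_of_coprime hco
  have hHcard : ∀ t : ℕ, t.Prime → t ∣ Nat.card H → ¬ σ p t := by
    intro t ht htd h
    rw [← hH.symm.index_eq_card] at htd
    exact hidx t ht h htd
  have hG1Q : ∀ g ∈ G1, QuotientGroup.mk' N g ∈ Q1 := fun g hg => part_map_le _ _ _ hg
  have hHQ : ∀ h ∈ H, QuotientGroup.mk' N h ∈ Q2 := fun h hh =>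
    part_map_le _ (⊤ : Subgroup G) _ (part_mono le_top _ (le_part (fun t ht htd => hHcard t ht htd) hh))
  have hcomm : ∀ g ∈ G1, ∀ h ∈ H, g * h * g⁻¹ * h⁻¹ ∈ N := by
    intro g hg h hh
    have h1 : QuotientGroup.mk' N g * QuotientGroup.mk' N h =
        QuotientGroup.mk' N h * QuotientGroup.mk' N g :=
      part_comm hQ hE (hG1Q g hg) (hHQ h hh)
    rw [← QuotientGroup.eq_one_iff]
    have h2 : QuotientGroup.mk' N (g * h * g⁻¹ * h⁻¹) = 1 := by
      rw [map_mul, map_mul, map_mul, map_inv, map_inv, h1, mul_assoc, mul_assoc,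
        mul_inv_cancel_left, mul_inv_cancel]
    exact h2
  have hdec : ∀ g : G, ∃ a ∈ G1, ∃ h ∈ H, g = a * h := by
    intro g
    have h1 : g ∈ G1 ⊔ H := by rw [hH.sup_eq_top]; trivial
    obtain ⟨a, ha, h, hh, he⟩ := Subgroup.mem_sup_of_normal_left.1 h1
    exact ⟨a, ha, h, hh, he.symm⟩
  have hNH : ∀ x ∈ N, x ∈ H → x = 1 := fun x h1 h2 =>
    eq_one_of_mem (fun t ht htG htH => hG1card t ht (fun h => (hHcard t ht htH) h) htG)
      (hNG1 h1) h2
  have hinto : ∀ C : Subgroup G, Cm σ C → ∃ m ∈ N, ∀ x ∈ part C (fun s => ¬ σ p s),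
      m⁻¹ * x * m ∈ H := by
    intro C hC
    refine conj_into N hc hp hN H _ hNH (part_not_dvd hC hE' hp (not_not.2 hpp)) ?_
    intro x hx
    obtain ⟨a, ha, h, hh, rfl⟩ := hdec x
    refine ⟨a, ?_, h, hh, rfl⟩
    have h1 : QuotientGroup.mk' N (a * h) ∈ Q2 := part_map_le _ _ _ hx
    have h2 : QuotientGroup.mk' N a = QuotientGroup.mk' N (a * h) * (QuotientGroup.mk' N h)⁻¹ := by
      rw [map_mul, mul_inv_cancel_right]
    have h3 : QuotientGroup.mk' N a ∈ Q2 := by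
      rw [h2]
      exact Q2.mul_mem h1 (Q2.inv_mem (hHQ h hh))
    exact (QuotientGroup.eq_one_iff a).1 (hQdisj _ (hG1Q a ha) h3)
  obtain ⟨mA, _, hmA⟩ := hinto A hA
  obtain ⟨mB, _, hmB⟩ := hinto B hB
  refine core_contra hp N G1 H (A.map (MulAut.conj mA⁻¹).toMonoidHom)
    (B.map (MulAut.conj mB⁻¹).toMonoidHom) hc hN hNbot hmin hNG1 hs hG1card hH hHcard hcomm hq hG
    (fac_conj hAB _ _) (Cm.map _ hA) (Cm.map _ hB) (fA.conj _) (fB.conj _) (part_conj ?_)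
    (part_conj ?_)
  · intro x hx
    rw [inv_inv]
    exact hmA x hx
  · intro x hx
    rw [inv_inv]
    exact hmB x hx

end Pool.Agent.AFC72
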