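import Pool.Agent.AFC72.Core

/-!
# A finite soluble product of two sigma-nilpotent subgroups with normal closures the whole group is
sigma-nilpotent
-/

set_option autoImplicit false

namespace Pool.Agent.AFC72

open Subgroup Pool.Agent.AFH29

variable {σ : Setoid ℕ}

/-- a subgroup which contains all `s`-elements has index prime to `s` -/
theorem index_not_dvd {G : Type} [Group G] [Finite G] {s : ℕ} (hs : s.Prime) (K : Subgroup G)
    (h : ∀ x : G, PEl s x → x ∈ K) : ¬ s ∣ K.index := by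
  intro hd
  have : Fact s.Prime := ⟨hs⟩
  obtain ⟨P⟩ : Nonempty (Sylow s G) := inferInstance
  have h1 : (P : Subgroup G) ≤ K := fun x hx => h x (IsPGroup.pow_of_mem P.2 hx)
  have h2 : s ∣ (P : Subgroup G).index := hd.trans (Subgroup.index_dvd_of_le h1)
  by_cases h3 : s ∣ Nat.card P
  · have := Nat.dvd_gcd h3 h2
    rw [Nat.Coprime.gcd_eq_one P.card_coprime_index] at this
    exact hs.one_lt.ne' (Nat.dvd_one.1 this)
  · obtain ⟨a, ha⟩ := IsPGroup.iff_card.1 P.2
    have h4 := P.card_coprime_index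
    rcases Nat.eq_zero_or_pos a with h5 | h5
    · rw [h5, pow_zero] at ha
      have h6 : s ∣ Nat.card G := by
        rw [← (P : Subgroup G).card_mul_index]
        exact Dvd.dvd.mul_left h2 _
      exact h3 (P.dvd_card_of_dvd_card h6)
    · exact h3 (by rw [ha]; exact dvd_pow_self s (by omega))

/-- a finite group generated by its elements of prime power order -/
theorem le_part {G : Type} [Group G] [Finite G] {K : Subgroup G} {F : ℕ → Prop}
    (hK : ∀ t, t.Prime → t ∣ Nat.card K → F t) : K ≤ part K F := by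
  have hcl : closure {x : G | x ∈ K ∧ ∃ s, s.Prime ∧ PEl s x} = K := by
    apply eq_of_primary
    · rw [Subgroup.closure_le]
      intro x hx
      exact hx.1
    · intro p hp L hL hLp x hx
      exact subset_closure ⟨hL hx, p, hp, IsPGroup.pow_of_mem hLp hx⟩
  conv_lhs => rw [← hcl]
  rw [Subgroup.closure_le]
  rintro x ⟨hxK, s, hs, hxs⟩
  by_cases h1 : x = 1
  · rw [h1]
    exact one_mem _
  · refine mem_part hxK hs (hK s hs ?_) hxs
    obtain ⟨k, hk⟩ := hxs
    have h2 : orderOf x ∣ s ^ k := orderOf_dvd_of_pow_eq_one hk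
    obtain ⟨j, _, hj⟩ := (Nat.dvd_prime_pow hs).1 h2
    have h3 : j ≠ 0 := by
      rintro rfl
      rw [pow_zero] at hj
      exact h1 (orderOf_eq_one_iff.1 hj)
    have h4 : s ∣ orderOf x := by
      rw [hj]
      exact dvd_pow_self s h3
    exact h4.trans (Subgroup.orderOf_dvd_natCard K hxK)

theorem part_map_le {G K : Type} [Group G] [Group K] (f : G →* K) (A : Subgroup G) (E : ℕ → Prop)
    {x : G} (hx : x ∈ part A E) : f x ∈ part (⊤ : Subgroup K) E := by
  have h : part A E ≤ (part (⊤ : Subgroup K) E).comap f := by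
    rw [part, Subgroup.closure_le]
    rintro y ⟨_, s, hs, hE, hy⟩
    exact mem_part (Subgroup.mem_top _) hs hE (hy.map f)
  exact h hx

theorem part_normal {G : Type} [Group G] {K : Subgroup G} (hK : K.Normal) (E : ℕ → Prop) :
    (part K E).Normal := by
  apply closure_normal_of_conj
  rintro x ⟨hx, s, hs, hE, k, hk⟩ g
  refine ⟨hK.conj_mem x hx g, s, hs, hE, k, ?_⟩
  rw [conj_pow, hk, mul_one, mul_inv_cancel]

theorem cm_top {G : Type} [Group G] (h : Cm σ G) : Cm σ (⊤ : Subgroup G) :=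
  h.of_injective (⊤ : Subgroup G).subtype (⊤ : Subgroup G).subtype_injective

/-- the subgroup is contained in no proper normal subgroup -/
def Full {G : Type} [Group G] (A : Subgroup G) : Prop :=
  ∀ K : Subgroup G, K.Normal → A ≤ K → K = ⊤

/-- the last step: `A` and `B` have their second parts in the complement -/
theorem core_contra {G : Type} [Group G] [Finite G] {p : ℕ} (hp : p.Prime) (N G1 H A B : Subgroup G)
    [hNn : N.Normal] [hG1n : G1.Normal] (hc : ∀ a ∈ N, ∀ b ∈ N, a * b = b * a)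
    (hN : ∀ w ∈ N, w ^ p = 1) (hNbot : N ≠ ⊥)
    (hmin : ∀ K : Subgroup G, K.Normal → K ≤ N → K = ⊥ ∨ K = N) (hNG1 : N ≤ G1)
    (hs : ∀ (x : G) (s : ℕ), s.Prime → σ p s → PEl s x → x ∈ G1)
    (hG1card : ∀ t : ℕ, t.Prime → ¬ σ p t → ¬ t ∣ Nat.card G1)
    (hcompl : IsComplement' G1 H) (hHcard : ∀ t : ℕ, t.Prime → t ∣ Nat.card H → ¬ σ p t)
    (hcomm : ∀ g ∈ G1, ∀ h ∈ H, g * h * g⁻¹ * h⁻¹ ∈ N)
    (hq : ∀ K : Subgroup G, ∀ [K.Normal], K ≠ ⊥ → Cm σ (G ⧸ K)) (hG : ¬ Cm σ G)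
    (hAB : ∀ g : G, ∃ a ∈ A, ∃ b ∈ B, g = a * b) (hA : Cm σ A) (hB : Cm σ B) (fA : Full A)
    (fB : Full B) (hA2 : part A (fun s => ¬ σ p s) ≤ H) (hB2 : part B (fun s => ¬ σ p s) ≤ H) :
    False := by
  have hE : ∀ s t, s.Prime → t.Prime → σ p s → ¬ σ p t → ¬ σ s t :=
    fun s t _ _ h1 h2 h3 => h2 (σ.trans h1 h3)
  have hE' : ∀ s t, s.Prime → t.Prime → ¬ σ p s → ¬ ¬ σ p t → ¬ σ s t :=
    fun s t _ _ h1 h2 h3 => h1 (σ.trans (not_not.1 h2) (σ.symm h3))
  have hpp : σ p p := σ.refl p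
  have hdisj : ∀ x, x ∈ G1 → x ∈ H → x = 1 := by
    intro x h1 h2
    exact eq_one_of_mem (fun t ht htG htH => hG1card t ht (fun h => (hHcard t ht htH) h) htG) h1 h2
  have hdec : ∀ g : G, ∃ a ∈ G1, ∃ h ∈ H, g = a * h := by
    intro g
    have h1 : g ∈ G1 ⊔ H := by rw [hcompl.sup_eq_top]; trivial
    obtain ⟨a, ha, h, hh, he⟩ := Subgroup.mem_sup_of_normal_left.1 h1
    exact ⟨a, ha, h, hh, he.symm⟩
  have hpH : ¬ p ∣ Nat.card H := fun h => hHcard p hp h hpp
  have hle : ∀ C : Subgroup G, part C (fun s => σ p s) ≤ G1 := by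
    intro C
    rw [part, Subgroup.closure_le]
    rintro x ⟨_, s, hsp, hE, hx⟩
    exact hs x s hsp hE hx
  -- the decomposition of H
  have hHdec : ∀ h ∈ H, ∃ a ∈ part A (fun s => ¬ σ p s), ∃ b ∈ part B (fun s => ¬ σ p s),
      h = a * b := by
    intro h hh
    obtain ⟨a, ha, b, hb, hab⟩ := hAB h
    obtain ⟨a1, ha1, a2, ha2, rfl⟩ := part_dec hA hE ha
    obtain ⟨b1, hb1, b2, hb2, rfl⟩ := part_dec hB hE hb
    refine ⟨a2, ha2, b2, hb2, ?_⟩
    have h1 : a1 * (a2 * b1 * a2⁻¹) ∈ G1 :=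
      G1.mul_mem (hle A ha1) (hG1n.conj_mem _ (hle B hb1) _)
    have h2 : h * (a2 * b2)⁻¹ = a1 * (a2 * b1 * a2⁻¹) := by
      rw [hab]; group
    have h3 := hdisj _ h1 (by
      rw [← h2]
      exact H.mul_mem hh (H.inv_mem (H.mul_mem (hA2 ha2) (hB2 hb2))))
    rw [h3] at h2
    exact (mul_inv_eq_one.1 h2)
  have hG1dec : ∀ n ∈ G1, ∃ a ∈ part A (fun s => σ p s), ∃ b ∈ part B (fun s => σ p s),
      n = a * b := by
    intro n hn
    obtain ⟨a, ha, b, hb, hab⟩ := hAB n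
    obtain ⟨a1, ha1, a2, ha2, rfl⟩ := part_dec hA hE ha
    obtain ⟨b1, hb1, b2, hb2, rfl⟩ := part_dec hB hE hb
    refine ⟨a1, ha1, b1, hb1, ?_⟩
    have h1 : a1 * (a2 * b1 * a2⁻¹) ∈ G1 :=
      G1.mul_mem (hle A ha1) (hG1n.conj_mem _ (hle B hb1) _)
    have h2 : (a1 * (a2 * b1 * a2⁻¹))⁻¹ * n = a2 * b2 := by
      rw [hab]; group
    have h3 := hdisj (a2 * b2) (by
      rw [← h2]
      exact G1.mul_mem (G1.inv_mem h1) hn) (H.mul_mem (hA2 ha2) (hB2 hb2))
    have h4 : a2 = b2⁻¹ := mul_eq_one_iff_eq_inv.1 h3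
    have h5 : b1 * b2 = b2 * b1 := part_comm hB hE hb1 hb2
    calc n = a1 * a2 * (b1 * b2) := hab
      _ = a1 * b2⁻¹ * (b2 * b1) := by rw [h4, h5]
      _ = a1 * b1 := by group
  -- elements of G1 and of the second parts
  have hsum : ∀ v ∈ N, ∃ x ∈ N, ∃ y ∈ N, (∀ a ∈ part A (fun s => ¬ σ p s), a * x * a⁻¹ = x) ∧
      (∀ b ∈ part B (fun s => ¬ σ p s), b * y * b⁻¹ = y) ∧ v = x * y := by
    intro v hv
    obtain ⟨a1, ha1, b1, hb1, hab⟩ := hG1dec v (hNG1 hv)
    obtain ⟨m, hm, hm'⟩ := ca N hc hp hN H hpH b1 (hcomm b1 (hle B hb1))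
    have hx : a1 * (m⁻¹ * b1) = v * ((m⁻¹ * b1)⁻¹ * m * (m⁻¹ * b1))⁻¹ := by
      rw [hab]; group
    have hy : (m⁻¹ * b1)⁻¹ * m * (m⁻¹ * b1) ∈ N := by
      have := hNn.conj_mem m hm (m⁻¹ * b1)⁻¹
      rwa [inv_inv] at this
    refine ⟨a1 * (m⁻¹ * b1), ?_, (m⁻¹ * b1)⁻¹ * m * (m⁻¹ * b1), hy, ?_, ?_, ?_⟩
    · rw [hx]
      exact N.mul_mem hv (N.inv_mem hy)
    · intro a ha
      have h1 : a1 * a = a * a1 := part_comm hA hE ha1 ha
      have h2 := hm' a (hA2 ha)
      rw [mul_inv_eq_iff_eq_mul, ← mul_assoc, ← h1, mul_assoc, ← h2, ← mul_assoc]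
    · intro b hb
      have h1 : b1 * b = b * b1 := part_comm hB hE hb1 hb
      have h2 := hm' b (hB2 hb)
      have h3 : m * b = b * m := by
        have h4 : m = b1 * (m⁻¹ * b1)⁻¹ := by group
        have h5 : (m⁻¹ * b1)⁻¹ * b = b * (m⁻¹ * b1)⁻¹ := by
          rw [inv_mul_eq_iff_eq_mul, ← mul_assoc, h2, mul_assoc, mul_inv_cancel, mul_one]
        calc m * b = b1 * (m⁻¹ * b1)⁻¹ * b := by rw [← h4]
          _ = b1 * (b * (m⁻¹ * b1)⁻¹) := by rw [mul_assoc, h5]
          _ = b * b1 * (m⁻¹ * b1)⁻¹ := by rw [← mul_assoc, h1]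
          _ = b * m := by rw [mul_assoc, ← h4]
      have h5 : (m⁻¹ * b1)⁻¹ * b = b * (m⁻¹ * b1)⁻¹ := by
        rw [inv_mul_eq_iff_eq_mul, ← mul_assoc, h2, mul_assoc, mul_inv_cancel, mul_one]
      rw [mul_inv_eq_iff_eq_mul]
      calc b * ((m⁻¹ * b1)⁻¹ * m * (m⁻¹ * b1)) = (b * (m⁻¹ * b1)⁻¹) * m * (m⁻¹ * b1) := by group
        _ = (m⁻¹ * b1)⁻¹ * b * m * (m⁻¹ * b1) := by rw [h5]
        _ = (m⁻¹ * b1)⁻¹ * (b * m) * (m⁻¹ * b1) := by group
        _ = (m⁻¹ * b1)⁻¹ * m * (b * (m⁻¹ * b1)) := by rw [← h3]; group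
        _ = (m⁻¹ * b1)⁻¹ * m * (m⁻¹ * b1) * b := by rw [← h2]; group
    · rw [hab]
      group
  -- fixed points of H
  have hfixH : ∀ v ∈ N, (∀ h ∈ H, h * v * h⁻¹ = v) → v = 1 := by
    let FH : Subgroup G :=
      { carrier := {v | v ∈ N ∧ ∀ h ∈ H, h * v * h⁻¹ = v}
        mul_mem' := by
          rintro a b ⟨ha, ha'⟩ ⟨hb, hb'⟩
          refine ⟨N.mul_mem ha hb, fun h hh => ?_⟩
          calc h * (a * b) * h⁻¹ = (h * a * h⁻¹) * (h * b * h⁻¹) := by group
            _ = a * b := by rw [ha' h hh, hb' h hh]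
        one_mem' := ⟨N.one_mem, fun h _ => by group⟩
        inv_mem' := by
          rintro a ⟨ha, ha'⟩
          refine ⟨N.inv_mem ha, fun h hh => ?_⟩
          calc h * a⁻¹ * h⁻¹ = (h * a * h⁻¹)⁻¹ := by group
            _ = a⁻¹ := by rw [ha' h hh] }
    have hFH : ∀ v, v ∈ FH ↔ v ∈ N ∧ ∀ h ∈ H, h * v * h⁻¹ = v := fun v => Iff.rfl
    have hFHn : FH.Normal := by
      refine ⟨?_⟩
      rintro v ⟨hv, hv'⟩ g
      obtain ⟨a, ha, h, hh, rfl⟩ := hdec g
      have h1 : a * h * v * (a * h)⁻¹ = a * (h * v * h⁻¹) * a⁻¹ := by group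
      rw [h1, hv' h hh]
      exact ⟨hNn.conj_mem v hv a, fix_conj N hc H (hcomm a ha) hv hv'⟩
    rcases hmin FH hFHn (fun v hv => hv.1) with h | h
    · intro v hv hv'
      have : v ∈ FH := ⟨hv, hv'⟩
      rw [h, Subgroup.mem_bot] at this
      exact this
    · exfalso
      apply hG
      -- H centralises G1
      have hcent : ∀ g ∈ G1, ∀ r ∈ H, g * r = r * g := by
        intro g hg r hr
        obtain ⟨m, hm, hm'⟩ := ca N hc hp hN H hpH g (hcomm g hg)
        have h1 : m * r = r * m := by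
          have : m ∈ FH := by rw [h]; exact hm
          have h2 := this.2 r hr
          exact (mul_inv_eq_iff_eq_mul.1 h2).symm
        calc g * r = m * (m⁻¹ * g * r) := by group
          _ = m * (r * (m⁻¹ * g)) := by rw [hm' r hr]
          _ = (m * r) * (m⁻¹ * g) := by group
          _ = r * g := by rw [h1]; group
      have hHn : ∀ y : G, ∀ t : ℕ, t.Prime → ¬ σ p t → PEl t y → y ∈ H := by
        intro y t ht htp ⟨k, hk⟩
        obtain ⟨g, hg, h, hh, rfl⟩ := hdec y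
        have h1 : Commute g h := hcent g hg h hh
        rw [h1.mul_pow] at hk
        have h2 : g ^ t ^ k = 1 := by
          refine hdisj _ (G1.pow_mem hg _) ?_
          have : g ^ t ^ k = (h ^ t ^ k)⁻¹ := mul_eq_one_iff_eq_inv.1 hk
          rw [this]
          exact H.inv_mem (H.pow_mem hh _)
        have h3 : g = 1 := by
          have h4 : (⟨g, hg⟩ : G1) = 1 := by
            have : Fact t.Prime := ⟨ht⟩
            exact PEl.eq_one_of_not_dvd (p := t) ⟨k, Subtype.ext h2⟩ (hG1card t ht htp)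
          exact congrArg Subtype.val h4
        rw [h3, one_mul]
        exact hh
      have hqN := hq N hNbot
      intro s t hsp htp hst x y hx hy
      by_cases h1 : σ p s
      · have h2 : ¬ σ p t := fun h2 => hst (σ.trans (σ.symm h1) h2)
        exact hcent x (hs x s hsp h1 hx) y (hHn y t htp h2 hy)
      · by_cases h2 : σ p t
        · exact (hcent y (hs y t htp h2 hy) x (hHn x s hsp h1 hx)).symm
        · have hxH := hHn x s hsp h1 hx
          have hyH := hHn y t htp h2 hy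
          have h3 := hqN s t hsp htp hst (QuotientGroup.mk' N x) (QuotientGroup.mk' N y)
            (hx.map _) (hy.map _)
          rw [← map_mul, ← map_mul] at h3
          have h4 : (x * y)⁻¹ * (y * x) ∈ N := by
            rw [← QuotientGroup.eq]
            exact h3
          have h5 := hdisj _ (hNG1 h4) (H.mul_mem (H.inv_mem (H.mul_mem hxH hyH))
            (H.mul_mem hyH hxH))
          exact inv_mul_eq_one.1 h5
  -- a second part which centralises N is trivial
  have hcontra : ∀ C : Subgroup G, Cm σ C → Full C → part C (fun s => ¬ σ p s) ≤ H →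
      (∀ v ∈ N, ∀ a ∈ part C (fun s => ¬ σ p s), a * v * a⁻¹ = v) → False := by
    intro C hC fC hCH hfix
    set R := part C (fun s => ¬ σ p s) with hR
    have hpR : ¬ p ∣ Nat.card R := fun h => hpH (h.trans (Subgroup.card_dvd_of_le hCH))
    have hRG1 : ∀ g ∈ G1, ∀ r ∈ R, g * r = r * g := by
      intro g hg r hr
      obtain ⟨m, hm, hm'⟩ := ca N hc hp hN R hpR g (fun r hr => hcomm g hg r (hCH hr))
      have h1 : m * r = r * m := (mul_inv_eq_iff_eq_mul.1 (hfix m hm r hr)).symm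
      calc g * r = m * (m⁻¹ * g * r) := by group
        _ = m * (r * (m⁻¹ * g)) := by rw [hm' r hr]
        _ = (m * r) * (m⁻¹ * g) := by group
        _ = r * g := by rw [h1]; group
    have hcn : (centralizer (G1 : Set G)).Normal := inferInstance
    set K := part (centralizer (G1 : Set G)) (fun s => ¬ σ p s) with hK
    have hKn : K.Normal := part_normal hcn _
    have hpK : ¬ p ∣ Nat.card K := by
      refine not_dvd_closure _ (fun s => ¬ σ p s) hp (fun x hx => hx.2) (fun h => h hpp) ?_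
      rintro x ⟨hx, _⟩ y _ hyp
      exact (Subgroup.mem_centralizer_iff.1 hx y (hs y p hp hpp hyp)).symm
    have hKbot : K = ⊥ := by
      by_contra hne
      apply hG
      refine Cm.subdirect (QuotientGroup.mk' N) (QuotientGroup.mk' K) ?_ (hq N hNbot) (hq K hne)
      intro x h1 h2
      have h3 : x ∈ N := (QuotientGroup.eq_one_iff x).1 h1
      have h4 : x ∈ K := (QuotientGroup.eq_one_iff x).1 h2
      have h5 : (⟨x, h4⟩ : K) = 1 := by
        have : Fact p.Prime := ⟨hp⟩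
        refine PEl.eq_one_of_not_dvd (p := p) ⟨1, Subtype.ext ?_⟩ hpK
        rw [pow_one]
        exact hN x h3
      exact congrArg Subtype.val h5
    have hRbot : R = ⊥ := by
      rw [eq_bot_iff, ← hKbot, hR, part, Subgroup.closure_le]
      rintro x ⟨hxC, s, hsp, hEs, hx⟩
      refine mem_part ?_ hsp hEs hx
      rw [Subgroup.mem_centralizer_iff]
      intro g hg
      exact hRG1 g hg x (mem_part hxC hsp hEs hx)
    have hCG1 : C ≤ G1 := by
      intro a ha
      obtain ⟨a1, ha1, a2, ha2, rfl⟩ := part_dec hC hE ha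
      have h1 : a2 ∈ R := ha2
      rw [hRbot, Subgroup.mem_bot] at h1
      rw [h1, mul_one]
      exact hle C ha1
    have hG1top : G1 = ⊤ := fC G1 hG1n hCG1
    apply hNbot
    rw [eq_bot_iff]
    intro v hv
    rw [Subgroup.mem_bot]
    refine hfixH v hv fun h hh => ?_
    have h1 : h = 1 := hdisj h (by rw [hG1top]; trivial) hh
    rw [h1]; group
  -- fixed points of the second part of A
  have hinv := inv_fix_sub N hc hp hN H (part A (fun s => ¬ σ p s)) (part B (fun s => ¬ σ p s))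
    hA2 hB2 (fun h => hpH (h.trans (Subgroup.card_dvd_of_le hB2))) hHdec hfixH hsum
  let FA : Subgroup G :=
    { carrier := {v | v ∈ N ∧ ∀ h ∈ part A (fun s => ¬ σ p s), h * v * h⁻¹ = v}
      mul_mem' := by
        rintro a b ⟨ha, ha'⟩ ⟨hb, hb'⟩
        refine ⟨N.mul_mem ha hb, fun h hh => ?_⟩
        calc h * (a * b) * h⁻¹ = (h * a * h⁻¹) * (h * b * h⁻¹) := by group
          _ = a * b := by rw [ha' h hh, hb' h hh]
      one_mem' := ⟨N.one_mem, fun h _ => by group⟩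
      inv_mem' := by
        rintro a ⟨ha, ha'⟩
        refine ⟨N.inv_mem ha, fun h hh => ?_⟩
        calc h * a⁻¹ * h⁻¹ = (h * a * h⁻¹)⁻¹ := by group
          _ = a⁻¹ := by rw [ha' h hh] }
  have hFAn : FA.Normal := by
    refine ⟨?_⟩
    rintro v ⟨hv, hv'⟩ g
    obtain ⟨g1, hg1, h, hh, rfl⟩ := hdec g
    obtain ⟨a, ha, b, hb, rfl⟩ := hHdec h hh
    have h1 := hinv v hv hv' b hb
    have h2 : g1 * (a * b) * v * (g1 * (a * b))⁻¹ = g1 * (a * (b * v * b⁻¹) * a⁻¹) * g1⁻¹ := by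
      group
    rw [h2, h1 a ha]
    have h3 : b * v * b⁻¹ ∈ N := hNn.conj_mem v hv b
    exact ⟨hNn.conj_mem _ h3 g1, fix_conj N hc (part A (fun s => ¬ σ p s))
      (fun r hr => hcomm g1 hg1 r (hA2 hr)) h3 h1⟩
  rcases hmin FA hFAn (fun v hv => hv.1) with h | h
  · refine hcontra B hB fB hB2 fun v hv b hb => ?_
    obtain ⟨x, hx, y, hy, h1, h2, rfl⟩ := hsum v hv
    have h3 : x ∈ FA := ⟨hx, h1⟩
    rw [h, Subgroup.mem_bot] at h3
    rw [h3, one_mul]
    exact h2 b hb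
  · refine hcontra A hA fA hA2 fun v hv a ha => ?_
    have h3 : v ∈ FA := by rw [h]; exact hv
    exact h3.2 a ha

end Pool.Agent.AFC72
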