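import Pool.Agent.AFC72.Avg

/-!
# Sigma-nilpotent groups: commuting condition and the two parts
-/

set_option autoImplicit false

namespace Pool.Agent.AFC72

open Subgroup Pool.Agent.AFH29

/-- elements of prime power order for inequivalent primes commute -/
def Cm (σ : Setoid ℕ) (G : Type) [Group G] : Prop :=
  ∀ p q : ℕ, p.Prime → q.Prime → ¬ σ p q → ∀ x y : G, PEl p x → PEl q y → x * y = y * x

variable {σ : Setoid ℕ}

theorem Cm.of_injective {G H : Type} [Group G] [Group H] (f : H →* G)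
    (hf : Function.Injective f) (h : Cm σ G) : Cm σ H := by
  intro p q hp hq hs x y hx hy
  apply hf
  rw [map_mul, map_mul]
  exact h p q hp hq hs _ _ (hx.map f) (hy.map f)

theorem Cm.of_surjective {G H : Type} [Group G] [Group H] [Finite G] (f : G →* H)
    (hf : Function.Surjective f) (h : Cm σ G) : Cm σ H := by
  intro p q hp hq hs x y hx hy
  have : Fact p.Prime := ⟨hp⟩
  have : Fact q.Prime := ⟨hq⟩
  obtain ⟨x', hx', rfl⟩ := hx.lift f hf
  obtain ⟨y', hy', rfl⟩ := hy.lift f hf
  rw [← map_mul, ← map_mul, h p q hp hq hs x' y' hx' hy']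

theorem Cm.subdirect {G H K : Type} [Group G] [Group H] [Group K] (f : G →* H) (g : G →* K)
    (hinj : ∀ x, f x = 1 → g x = 1 → x = 1) (hH : Cm σ H) (hK : Cm σ K) : Cm σ G := by
  have hi : Function.Injective (f.prod g) := injective_prod f g hinj
  intro p q hp hq hs x y hx hy
  apply hi
  rw [map_mul, map_mul]
  exact Prod.ext (hH p q hp hq hs _ _ (hx.map f) (hy.map f))
    (hK p q hp hq hs _ _ (hx.map g) (hy.map g))

/-- a set of `E`-elements which commute with all `t`-elements of the subgroup they generate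
generates a subgroup of order prime to `t` -/
theorem not_dvd_closure {G : Type} [Group G] [Finite G] (T : Set G) (E : ℕ → Prop) {t : ℕ}
    (ht' : t.Prime) (hT : ∀ x ∈ T, ∃ s, s.Prime ∧ E s ∧ PEl s x) (ht : ¬ E t)
    (hcomm : ∀ x ∈ T, ∀ y ∈ closure T, PEl t y → x * y = y * x) :
    ¬ t ∣ Nat.card (closure T) := by
  intro hd
  have : Fact t.Prime := ⟨ht'⟩
  obtain ⟨Q⟩ : Nonempty (Sylow t (closure T)) := inferInstance
  have hcent : ∀ y ∈ (Q : Subgroup (closure T)), ∀ g : closure T, g * y = y * g := by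
    intro y hy g
    have hg : (g : G) ∈ closure T := g.2
    have hle : closure T ≤ centralizer {(y : G)} := by
      rw [Subgroup.closure_le]
      intro x hx
      rw [SetLike.mem_coe, Subgroup.mem_centralizer_iff]
      intro z hz
      rw [Set.mem_singleton_iff] at hz
      subst hz
      refine (hcomm x hx (y : G) y.2 ?_).symm
      have h1 : PEl t y := IsPGroup.pow_of_mem Q.2 hy
      exact h1.map (closure T).subtype
    have h2 := Subgroup.mem_centralizer_iff.1 (hle hg) (y : G) rfl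
    exact Subtype.ext h2.symm
  have hQn : (Q : Subgroup (closure T)).Normal := by
    refine ⟨?_⟩
    intro y hy g
    rw [hcent y hy g, mul_inv_cancel_right]
    exact hy
  obtain ⟨N, hN⟩ := Subgroup.exists_right_complement'_of_coprime (N := (Q : Subgroup (closure T)))
    Q.card_coprime_index
  have hdec : ∀ g : closure T, ∃ q ∈ (Q : Subgroup (closure T)), ∃ n ∈ N, q * n = g := by
    intro g
    have h1 : g ∈ (Q : Subgroup (closure T)) ⊔ N := by rw [hN.sup_eq_top]; trivial
    obtain ⟨q, hq, n, hn, h⟩ := Subgroup.mem_sup_of_normal_left.1 h1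
    exact ⟨q, hq, n, hn, h⟩
  have hNn : N.Normal := by
    refine ⟨?_⟩
    intro n hn g
    obtain ⟨q, hq, m, hm, rfl⟩ := hdec g
    have h1 : m * n * m⁻¹ ∈ N := N.mul_mem (N.mul_mem hm hn) (N.inv_mem hm)
    have h2 : q * m * n * (q * m)⁻¹ = q * (m * n * m⁻¹) * q⁻¹ := by group
    rw [h2, ← hcent q hq, mul_inv_cancel_right]
    exact h1
  have hNi : N.index = Nat.card Q := hN.index_eq_card
  obtain ⟨a, ha⟩ := IsPGroup.iff_card.1 Q.2
  have hNt : N = ⊤ := by
    rw [eq_top_iff, ← Subgroup.closure_closure_coe_preimage (k := T), Subgroup.closure_le]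
    intro x hx
    obtain ⟨s, hs, hEs, k, hk⟩ := hT x hx
    have hk' : x ^ s ^ k = 1 := Subtype.ext hk
    have hst : s ≠ t := by rintro rfl; exact ht hEs
    have : Fact s.Prime := ⟨hs⟩
    rw [SetLike.mem_coe, ← QuotientGroup.eq_one_iff]
    refine eq_one_of_pow_pow hst (m := k) (n := a) ?_ ?_
    · rw [← QuotientGroup.mk_pow, hk', QuotientGroup.mk_one]
    · rw [← ha, ← hNi]
      exact pow_card_eq_one'
  have h1 : Nat.card Q = 1 := by
    rw [← hNi, hNt, Subgroup.index_top]
  have h2 := Q.dvd_card_of_dvd_card hd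
  rw [h1] at h2
  exact ht'.one_lt.ne' (Nat.dvd_one.1 h2)

/-- the subgroup of `A` generated by the elements of prime power order for primes in `E` -/
def part {G : Type} [Group G] (A : Subgroup G) (E : ℕ → Prop) : Subgroup G :=
  closure {x : G | x ∈ A ∧ ∃ s, s.Prime ∧ E s ∧ PEl s x}

theorem part_le {G : Type} [Group G] (A : Subgroup G) (E : ℕ → Prop) : part A E ≤ A := by
  rw [part, Subgroup.closure_le]
  intro x hx
  exact hx.1

theorem mem_part {G : Type} [Group G] {A : Subgroup G} {E : ℕ → Prop} {x : G} (hx : x ∈ A) {s : ℕ}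
    (hs : s.Prime) (hE : E s) (h : PEl s x) : x ∈ part A E :=
  subset_closure ⟨hx, s, hs, hE, h⟩

theorem part_mono {G : Type} [Group G] {A B : Subgroup G} (h : A ≤ B) (E : ℕ → Prop) :
    part A E ≤ part B E :=
  Subgroup.closure_mono fun _ hx => ⟨h hx.1, hx.2⟩

/-- restriction of the commuting condition to a subgroup, in terms of elements -/
theorem cm_iff {G : Type} [Group G] {A : Subgroup G} (h : Cm σ A) {p q : ℕ} (hp : p.Prime)
    (hq : q.Prime) (hs : ¬ σ p q) {x y : G} (hx : x ∈ A) (hy : y ∈ A) (hxp : PEl p x)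
    (hyq : PEl q y) : x * y = y * x := by
  have hx' : PEl p (⟨x, hx⟩ : A) := by
    obtain ⟨k, hk⟩ := hxp
    exact ⟨k, Subtype.ext hk⟩
  have hy' : PEl q (⟨y, hy⟩ : A) := by
    obtain ⟨k, hk⟩ := hyq
    exact ⟨k, Subtype.ext hk⟩
  exact congrArg Subtype.val (h p q hp hq hs _ _ hx' hy')

/-- the two parts commute elementwise -/
theorem part_comm {G : Type} [Group G] {A : Subgroup G} (h : Cm σ A) {E F : ℕ → Prop}
    (hEF : ∀ s t, s.Prime → t.Prime → E s → F t → ¬ σ s t) {x y : G} (hx : x ∈ part A E)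
    (hy : y ∈ part A F) : x * y = y * x := by
  have h1 : part A E ≤ centralizer (part A F : Set G) := by
    rw [part, Subgroup.closure_le]
    intro x hx
    obtain ⟨hxA, s, hs, hE, hxs⟩ := hx
    rw [SetLike.mem_coe, Subgroup.mem_centralizer_iff]
    intro z hz
    have h2 : part A F ≤ centralizer {x} := by
      rw [part, Subgroup.closure_le]
      intro y hy
      obtain ⟨hyA, t, ht, hF, hyt⟩ := hy
      rw [SetLike.mem_coe, Subgroup.mem_centralizer_iff]
      intro w hw
      rw [Set.mem_singleton_iff] at hw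
      subst hw
      exact cm_iff h hs ht (hEF s t hs ht hE hF) hxA hyA hxs hyt
    have h3 := Subgroup.mem_centralizer_iff.1 (h2 hz) x rfl
    exact h3.symm
  have := Subgroup.mem_centralizer_iff.1 (h1 hx) y hy
  exact this.symm

theorem part_not_dvd {G : Type} [Group G] [Finite G] {A : Subgroup G} (h : Cm σ A) {E : ℕ → Prop}
    (hE : ∀ s t, s.Prime → t.Prime → E s → ¬ E t → ¬ σ s t) {t : ℕ} (ht : t.Prime)
    (hEt : ¬ E t) : ¬ t ∣ Nat.card (part A E) := by
  refine not_dvd_closure _ E ht (fun x hx => hx.2) hEt ?_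
  intro x hx y hy hyt
  obtain ⟨hxA, s, hs, hEs, hxs⟩ := hx
  exact cm_iff h hs ht (hE s t hs ht hEs hEt) hxA (part_le A E hy) hxs hyt

/-- decomposition of an element into its parts -/
theorem part_dec {G : Type} [Group G] [Finite G] {A : Subgroup G} (h : Cm σ A) {E : ℕ → Prop}
    (hE : ∀ s t, s.Prime → t.Prime → E s → ¬ E t → ¬ σ s t) {a : G} (ha : a ∈ A) :
    ∃ x ∈ part A E, ∃ y ∈ part A (fun s => ¬ E s), a = x * y := by
  have hcl : closure {x : G | x ∈ A ∧ ∃ s, s.Prime ∧ PEl s x} = A := by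
    apply eq_of_primary
    · rw [Subgroup.closure_le]
      intro x hx
      exact hx.1
    · intro p hp L hL hLp x hx
      exact subset_closure ⟨hL hx, p, hp, IsPGroup.pow_of_mem hLp hx⟩
  have hcomm : ∀ x ∈ part A E, ∀ y ∈ part A (fun s => ¬ E s), x * y = y * x :=
    fun x hx y hy => part_comm h (fun s t hs ht h1 h2 => hE s t hs ht h1 h2) hx hy
  rw [← hcl] at ha
  induction ha using Subgroup.closure_induction with
  | mem x hx =>
    obtain ⟨hxA, s, hs, hxs⟩ := hx
    by_cases hEs : E s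
    · exact ⟨x, mem_part hxA hs hEs hxs, 1, one_mem _, (mul_one x).symm⟩
    · exact ⟨1, one_mem _, x, mem_part hxA hs hEs hxs, (one_mul x).symm⟩
  | one => exact ⟨1, one_mem _, 1, one_mem _, (mul_one 1).symm⟩
  | mul a b _ _ iha ihb =>
    obtain ⟨x, hx, y, hy, rfl⟩ := iha
    obtain ⟨x', hx', y', hy', rfl⟩ := ihb
    refine ⟨x * x', mul_mem hx hx', y * y', mul_mem hy hy', ?_⟩
    rw [mul_assoc, ← mul_assoc y, ← hcomm x' hx' y hy, mul_assoc, mul_assoc]
  | inv a _ iha =>
    obtain ⟨x, hx, y, hy, rfl⟩ := iha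
    refine ⟨x⁻¹, inv_mem hx, y⁻¹, inv_mem hy, ?_⟩
    rw [mul_inv_rev, hcomm _ (inv_mem hx) _ (inv_mem hy)]

/-- subgroups whose orders have no common prime divisor intersect trivially -/
theorem eq_one_of_mem {G : Type} [Group G] [Finite G] {K L : Subgroup G}
    (h : ∀ t : ℕ, t.Prime → t ∣ Nat.card K → ¬ t ∣ Nat.card L) {x : G} (hK : x ∈ K)
    (hL : x ∈ L) : x = 1 := by
  by_contra hx
  have h1 : orderOf x ≠ 1 := fun h' => hx (orderOf_eq_one_iff.1 h')
  obtain ⟨t, ht, htd⟩ := Nat.exists_prime_and_dvd h1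
  exact h t ht (htd.trans (Subgroup.orderOf_dvd_natCard K hK))
    (htd.trans (Subgroup.orderOf_dvd_natCard L hL))

end Pool.Agent.AFC72
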