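import Pool.Agent.AFC72.Ind

/-!
# Products of two normal sigma-nilpotent subgroups; products of two subgroups
-/

set_option autoImplicit false

namespace Pool.Agent.AFC72

open Subgroup Pool.Agent.AFH29

variable {σ : Setoid ℕ}

theorem dvd_card_sup {G : Type} [Group G] {H K : Subgroup G} (hK : K.Normal)
    {t : ℕ} (ht : t.Prime) (h : t ∣ Nat.card ↥(H ⊔ K)) : t ∣ Nat.card H ∨ t ∣ Nat.card K := by
  have h1 : Nat.card K * K.relIndex (H ⊔ K) = Nat.card ↥(H ⊔ K) := by
    have h2 := relIndex_mul_relIndex ⊥ K (H ⊔ K) bot_le le_sup_right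
    rwa [relIndex_bot_left, relIndex_bot_left] at h2
  rw [← h1, relIndex_sup_right] at h
  rcases (Nat.Prime.dvd_mul ht).1 h with h | h
  · exact Or.inr h
  · exact Or.inl (h.trans (relIndex_dvd_card _ _))

theorem part_relIndex {G : Type} [Group G] [Finite G] (N : Subgroup G) (E : ℕ → Prop) {s : ℕ}
    (hs : s.Prime) (hE : E s) : ¬ s ∣ (part N E).relIndex N := by
  refine index_not_dvd hs ((part N E).subgroupOf N) ?_
  rintro ⟨x, hx⟩ ⟨k, hk⟩
  rw [Subgroup.mem_subgroupOf]
  exact mem_part hx hs hE ⟨k, congrArg Subtype.val hk⟩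

theorem cm_prod {G : Type} [Group G] [Finite G] {N₁ N₂ : Subgroup G} (hn1 : N₁.Normal)
    (hn2 : N₂.Normal) (htop : N₁ ⊔ N₂ = ⊤) (h1 : Cm σ N₁) (h2 : Cm σ N₂) : Cm σ G := by
  have hE : ∀ p s t : ℕ, s.Prime → t.Prime → σ p s → ¬ σ p t → ¬ σ s t :=
    fun p s t _ _ h1 h2 h3 => h2 (σ.trans h1 h3)
  have hn : ∀ p, (part N₂ (fun s => σ p s)).Normal := fun p => part_normal hn2 _
  have hn' : ∀ p, (part N₁ (fun s => σ p s)).Normal := fun p => part_normal hn1 _
  have hUn : ∀ p, (part N₁ (fun s => σ p s) ⊔ part N₂ (fun s => σ p s)).Normal := by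
    intro p
    have := hn p
    have := hn' p
    exact inferInstance
  have hUcard : ∀ p t : ℕ, t.Prime → ¬ σ p t →
      ¬ t ∣ Nat.card ↥(part N₁ (fun s => σ p s) ⊔ part N₂ (fun s => σ p s)) := by
    intro p t ht hpt hd
    rcases dvd_card_sup (hn p) ht hd with h | h
    · exact part_not_dvd h1 (hE p) ht hpt h
    · exact part_not_dvd h2 (hE p) ht hpt h
  have hUmem : ∀ (p s : ℕ) (x : G), s.Prime → σ p s → PEl s x →
      x ∈ part N₁ (fun s => σ p s) ⊔ part N₂ (fun s => σ p s) := by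
    intro p s x hs hps hx
    have := hUn p
    set U := part N₁ (fun s => σ p s) ⊔ part N₂ (fun s => σ p s) with hU
    have hidx : ¬ s ∣ U.index := by
      intro hd
      rw [← relIndex_mul_index (le_sup_left : U ≤ U ⊔ N₁), relIndex_sup_left] at hd
      rcases (Nat.Prime.dvd_mul hs).1 hd with h | h
      · exact part_relIndex N₁ (fun s => σ p s) hs hps
          (h.trans (relIndex_dvd_of_le_left N₁ le_sup_left))
      · have hn3 : (U ⊔ N₁).Normal := inferInstance
        have h3 : (U ⊔ N₁) ⊔ N₂ = ⊤ := by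
          rw [eq_top_iff, ← htop]
          exact sup_le (le_sup_right.trans le_sup_left) le_sup_right
        rw [← relIndex_top_right, ← h3, relIndex_sup_left] at h
        exact part_relIndex N₂ (fun s => σ p s) hs hps
          (h.trans (relIndex_dvd_of_le_left N₂ (le_sup_right.trans le_sup_left)))
    have : Fact s.Prime := ⟨hs⟩
    rw [index_eq_card] at hidx
    have h3 : QuotientGroup.mk' U x = 1 := PEl.eq_one_of_not_dvd (p := s) (hx.map _) hidx
    exact (QuotientGroup.eq_one_iff x).1 h3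
  intro p q hp hq hpq x y hx hy
  have hx' := hUmem p p x hp (σ.refl p) hx
  have hy' := hUmem q q y hq (σ.refl q) hy
  refine commute_of_normal_of_disjoint _ _ (hUn p) (hUn q) ?_ x y hx' hy'
  rw [Subgroup.disjoint_def]
  intro z hz1 hz2
  refine eq_one_of_mem (fun t ht hd1 hd2 => ?_) hz1 hz2
  by_cases h3 : σ p t
  · by_cases h4 : σ q t
    · exact hpq (σ.trans h3 (σ.symm h4))
    · exact hUcard q t ht h4 hd2
  · exact hUcard p t ht h3 hd1

/-- a prime divisor of the order of `G = AB` divides the order of `A` or of `B` -/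
theorem dvd_card_fac {G : Type} [Group G] {A B : Subgroup G}
    (h : ∀ g : G, ∃ a ∈ A, ∃ b ∈ B, g = a * b) {t : ℕ} (ht : t.Prime) (hd : t ∣ Nat.card G) :
    t ∣ Nat.card A ∨ t ∣ Nat.card B := by
  have hrep : ∀ x : G ⧸ B, ∃ a ∈ A, x = (a : G) := by
    intro x
    obtain ⟨g, rfl⟩ := QuotientGroup.mk_surjective x
    obtain ⟨a, ha, b, hb, rfl⟩ := h g
    exact ⟨a, ha, QuotientGroup.mk_mul_of_mem a hb⟩
  have htr : MulAction.IsPretransitive A (G ⧸ B) := by
    refine ⟨fun x y => ?_⟩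
    obtain ⟨a, ha, rfl⟩ := hrep x
    obtain ⟨a', ha', rfl⟩ := hrep y
    refine ⟨⟨a' * a⁻¹, A.mul_mem ha' (A.inv_mem ha)⟩, ?_⟩
    show (a' * a⁻¹) • ((a : G) : G ⧸ B) = _
    rw [MulAction.Quotient.smul_mk, smul_eq_mul, inv_mul_cancel_right]
  have h1 := MulAction.index_stabilizer_of_transitive A ((1 : G) : G ⧸ B)
  rw [← B.card_mul_index] at hd
  rcases (Nat.Prime.dvd_mul ht).1 hd with h2 | h2
  · exact Or.inr h2
  · left
    rw [index_eq_card, ← h1] at h2
    exact h2.trans (Subgroup.index_dvd_card _)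

end Pool.Agent.AFC72
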